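import Mathlib
import Pool.Agent.N979.CAP.Stm
import Pool.Agent.N46.CAP_EXT
import Pool.Agent.K9h55.FA.Ext

/-! # Extension of the boundary functions, for arbitrary curves -/

set_option autoImplicit false

namespace Pool.Agent.K9h13.SD

open Real
open Pool.Agent.N979.CAP
open Pool.Agent.N46.CAP_EXT (inf_le)

/-- the McShane extension -/
noncomputable def fe {M : Type} [MetricSpace M] (β : ℝ → M) (B : ℝ → ℝ → ℝ) (θ : ℝ) (x : M) : ℝ :=
  ⨅ t : ℝ, (B θ t + dist x (β t))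

section F
variable {M : Type} [MetricSpace M] (β : ℝ → M) (B : ℝ → ℝ → ℝ) (A : ℝ)
  (hA : ∀ θ t, |B θ t| ≤ A)

include hA

lemma fe_bdd (θ : ℝ) (x : M) : BddBelow (Set.range fun t : ℝ => B θ t + dist x (β t)) := by
  refine ⟨-A, ?_⟩
  rintro _ ⟨t, rfl⟩
  have := (abs_le.1 (hA θ t)).1
  have := dist_nonneg (x := x) (y := β t)
  show -A ≤ B θ t + dist x (β t)
  linarith

lemma fe_lip (θ : ℝ) (x y : M) : fe β B θ x ≤ fe β B θ y + dist x y := by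
  apply inf_le _ _ _ (fe_bdd β B A hA θ x)
  intro t
  linarith [dist_triangle x y (β t)]

lemma fe_theta (W : ℝ → ℝ → ℝ) (hW : ∀ θ θ' t, B θ t ≤ B θ' t + W θ θ') (θ θ' : ℝ) (x : M) :
    fe β B θ x ≤ fe β B θ' x + W θ θ' := by
  apply inf_le _ _ _ (fe_bdd β B A hA θ x)
  intro t
  linarith [hW θ θ' t]

lemma fe_pi (hπ : ∀ θ t, B (θ + π) t = -B θ t) (θ : ℝ) (x : M) :
    fe β B θ x ≤ fe β B (θ + π) x + 2 * A := by
  apply inf_le _ _ _ (fe_bdd β B A hA θ x)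
  intro t
  rw [hπ]
  linarith [(abs_le.1 (hA θ t)).2]

lemma fe_pi' (hπ : ∀ θ t, B (θ + π) t = -B θ t) (θ : ℝ) (x : M) :
    fe β B (θ + π) x ≤ fe β B θ x + 2 * A := by
  apply inf_le _ _ _ (fe_bdd β B A hA (θ + π) x)
  intro t
  rw [hπ]
  linarith [(abs_le.1 (hA θ t)).1]

lemma fe_bound (hd : ∀ θ s t, B θ s ≤ B θ t + dist (β s) (β t)) (θ t : ℝ) :
    fe β B θ (β t) = B θ t := by
  apply le_antisymm
  · have h2 := ciInf_le (fe_bdd β B A hA θ (β t)) t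
    simp only [dist_self, add_zero] at h2
    exact h2
  · apply le_ciInf
    intro s
    exact hd θ t s

end F

theorem ext {M : Type} [MetricSpace M] (β : ℝ → M) (B : ℝ → ℝ → ℝ) (A : ℝ) (W : ℝ → ℝ → ℝ)
    (hA : ∀ θ t, |B θ t| ≤ A) (hW : ∀ θ θ' t, B θ t ≤ B θ' t + W θ θ')
    (hW1 : ∀ θ θ', W θ' θ = W θ θ') (hW2 : ∀ θ θ', W (θ + π) (θ' + π) = W θ θ')
    (hπ : ∀ θ t, B (θ + π) t = -B θ t) (hd : ∀ θ s t, B θ s ≤ B θ t + dist (β s) (β t)) :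
    ∃ G : ℝ → M → ℝ, (∀ θ x y, |G θ x - G θ y| ≤ dist x y) ∧ (∀ θ x, G (θ + π) x = -G θ x) ∧
    (∀ θ x, |G θ x| ≤ A) ∧ (∀ θ θ' x, |G θ x - G θ' x| ≤ W θ θ') ∧
    ∀ θ t : ℝ, G θ (β t) = B θ t := by
  refine ⟨fun θ x => (fe β B θ x - fe β B (θ + π) x) / 2, ?_, ?_, ?_, ?_, ?_⟩
  · intro θ x y
    rw [abs_le]
    have a1 := fe_lip β B A hA θ x y
    have a2 := fe_lip β B A hA θ y x
    have a3 := fe_lip β B A hA (θ + π) x y
    have a4 := fe_lip β B A hA (θ + π) y x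
    rw [dist_comm y x] at a2 a4
    constructor <;> dsimp only <;> linarith
  · intro θ x
    dsimp only
    have : fe β B (θ + π + π) x = fe β B θ x := by
      unfold fe
      congr 1
      funext t
      rw [hπ, hπ, neg_neg]
    rw [this]
    ring
  · intro θ x
    dsimp only
    rw [abs_le]
    have a1 := fe_pi β B A hA hπ θ x
    have a2 := fe_pi' β B A hA hπ θ x
    constructor <;> linarith
  · intro θ θ' x
    dsimp only
    rw [abs_le]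
    have a1 := fe_theta β B A hA W hW θ θ' x
    have a2 := fe_theta β B A hA W hW θ' θ x
    have a3 := fe_theta β B A hA W hW (θ + π) (θ' + π) x
    have a4 := fe_theta β B A hA W hW (θ' + π) (θ + π) x
    rw [hW1] at a2
    rw [hW2] at a3
    rw [hW2, hW1] at a4
    constructor <;> linarith
  · intro θ t
    dsimp only
    rw [fe_bound β B A hA hd, fe_bound β B A hA hd, hπ]
    ring

/-- The boundary functions of a curve in a cap: `arcsin ⟨b, e_θ⟩`. -/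
theorem ext_curve {M : Type} [MetricSpace M] (β : ℝ → M) (x y : ℝ → ℝ) (s₀ : ℝ) (h0 : 0 ≤ s₀)
    (h1 : s₀ ≤ 1) (hxy : ∀ t, x t ^ 2 + y t ^ 2 ≤ s₀ ^ 2)
    (hd : ∀ θ s t, arcsin (dt (x s) (y s) θ) ≤ arcsin (dt (x t) (y t) θ) + dist (β s) (β t)) :
    ∃ G : ℝ → M → ℝ, (∀ θ x y, |G θ x - G θ y| ≤ dist x y) ∧ (∀ θ x, G (θ + π) x = -G θ x) ∧
    (∀ θ x, |G θ x| ≤ arcsin s₀) ∧
    (∀ θ θ' x, |G θ x - G θ' x| ≤ 2 * arcsin (s₀ * |sin ((θ - θ') / 2)|)) ∧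
    ∀ θ t : ℝ, G θ (β t) = arcsin (dt (x t) (y t) θ) := by
  have hpol : ∀ t, ∃ r τ : ℝ, 0 ≤ r ∧ r ≤ s₀ ∧ ∀ θ, dt (x t) (y t) θ = r * cos (θ - τ) := by
    intro t
    refine ⟨‖(⟨x t, y t⟩ : ℂ)‖, Complex.arg ⟨x t, y t⟩, norm_nonneg _, ?_, fun θ => ?_⟩
    · apply le_of_sq_le_sq _ h0
      rw [Complex.sq_norm, Complex.normSq_mk]
      have := hxy t
      nlinarith
    · have hx := Complex.norm_mul_cos_arg (⟨x t, y t⟩ : ℂ)
      have hy := Complex.norm_mul_sin_arg (⟨x t, y t⟩ : ℂ)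
      simp only at hx hy
      unfold dt
      rw [cos_sub]
      linear_combination (-cos θ) * hx - sin θ * hy
  refine ext β (fun θ t => arcsin (dt (x t) (y t) θ)) (arcsin s₀)
    (fun θ θ' => 2 * arcsin (s₀ * |sin ((θ - θ') / 2)|)) ?_ ?_ ?_ ?_ ?_ hd
  · intro θ t
    obtain ⟨r, τ, hr0, hrs, h⟩ := hpol t
    rw [h θ, abs_le]
    have h2 := Pool.Agent.N46.CAP_EXT.b_le r hr0 θ τ
    have h3 := Pool.Agent.N46.CAP_EXT.le_b r hr0 θ τ
    have h4 : arcsin r ≤ arcsin s₀ := monotone_arcsin hrs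
    unfold Pool.Agent.N46.CAP_EXT.b at h2 h3
    constructor <;> linarith
  · intro θ θ' t
    obtain ⟨r, τ, hr0, hrs, h⟩ := hpol t
    simp only [h]
    have h2 := Pool.Agent.K9h55.FA.Ext.b_theta2 r hr0 (hrs.trans h1) θ θ' τ
    unfold Pool.Agent.N46.CAP_EXT.b at h2
    have h3 : arcsin (r * |sin ((θ - θ') / 2)|) ≤ arcsin (s₀ * |sin ((θ - θ') / 2)|) :=
      monotone_arcsin (mul_le_mul_of_nonneg_right hrs (abs_nonneg _))
    linarith
  · intro θ θ'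
    show 2 * arcsin (s₀ * |sin ((θ' - θ) / 2)|) = 2 * arcsin (s₀ * |sin ((θ - θ') / 2)|)
    rw [show (θ' - θ) / 2 = -((θ - θ') / 2) by ring, sin_neg, abs_neg]
  · intro θ θ'
    show 2 * arcsin (s₀ * |sin ((θ + π - (θ' + π)) / 2)|) = 2 * arcsin (s₀ * |sin ((θ - θ') / 2)|)
    rw [show θ + π - (θ' + π) = θ - θ' by ring]
  · intro θ t
    rw [← arcsin_neg]
    congr 1
    unfold dt
    rw [cos_add_pi, sin_add_pi]
    ring

end Pool.Agent.K9h13.SD
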