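import Mathlib
import Pool.Agent.N979.CAP.Stm

/-!
# Loop sums of Lipschitz functions along the boundary of a surface

The boundary of a surface is a Lipschitz curve, and the loop sums of Lipschitz functions converge to the integral
`∫ α β'`, `β'` the derivative almost everywhere.
-/

set_option autoImplicit false

open Filter Topology Finset Set MeasureTheory

namespace Pool.Agent.K9h13.SD

open Pool.Agent.H115R3.Filling Pool.Agent.N979.CAP

/-- `f` is Lipschitz with constant `C` on `[A, B]` -/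
def LipI (f : ℝ → ℝ) (A B C : ℝ) : Prop :=
  ∀ s ∈ Icc A B, ∀ t ∈ Icc A B, |f s - f t| ≤ C * |s - t|

lemma LipI.on {f : ℝ → ℝ} {A B C : ℝ} (hC : 0 ≤ C) (h : LipI f A B C) :
    LipschitzOnWith (⟨C, hC⟩ : NNReal) f (Icc A B) := by
  apply LipschitzOnWith.of_dist_le_mul
  intro s hs t ht
  rw [Real.dist_eq, Real.dist_eq]
  exact h s hs t ht

lemma LipI.ac {f : ℝ → ℝ} {A B C : ℝ} (hAB : A ≤ B) (hC : 0 ≤ C) (h : LipI f A B C) :
    AbsolutelyContinuousOnInterval f A B := by
  have h1 := h.on hC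
  rw [← uIcc_of_le hAB] at h1
  exact h1.absolutelyContinuousOnInterval

lemma LipI.deriv_le {f : ℝ → ℝ} {A B C : ℝ} (hC : 0 ≤ C) (h : LipI f A B C) {t : ℝ}
    (ht : t ∈ Ioo A B) : |deriv f t| ≤ C := by
  have h1 := norm_deriv_le_of_lipschitzOn (Icc_mem_nhds ht.1 ht.2) (h.on hC)
  rw [Real.norm_eq_abs] at h1
  exact h1

lemma LipI.mono {f : ℝ → ℝ} {A B C A' B' : ℝ} (h : LipI f A B C) (hA : A ≤ A') (hB : B' ≤ B) :
    LipI f A' B' C :=
  fun s hs t ht => h s ⟨hA.trans hs.1, hs.2.trans hB⟩ t ⟨hA.trans ht.1, ht.2.trans hB⟩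

lemma LipI.cont {f : ℝ → ℝ} {A B C : ℝ} (hC : 0 ≤ C) (h : LipI f A B C) :
    ContinuousOn f (Icc A B) := (h.on hC).continuousOn

/-- the product of a Lipschitz function and the derivative of another one is integrable -/
lemma LipI.integrable {f g : ℝ → ℝ} {A B C D : ℝ} (hAB : A ≤ B) (hC : 0 ≤ C) (hD : 0 ≤ D)
    (h : LipI f A B C) (hg : LipI g A B D) :
    IntervalIntegrable (fun t => f t * deriv g t) volume A B := by
  have h1 := (hg.ac hAB hD).intervalIntegrable_deriv
  have h2 : ContinuousOn f (uIcc A B) := by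
    rw [uIcc_of_le hAB]; exact h.cont hC
  exact h1.continuousOn_mul h2

theorem one_arc (A B C : ℝ) (hAB : A < B) (hC : 0 ≤ C) (α β : ℝ → ℝ) (hα : LipI α A B C)
    (hβ : LipI β A B C) (a : ℕ → ℕ → ℝ)
    (ha : ∀ n i : ℕ, a n i = A + (i : ℝ) / n * (B - A)) :
    Tendsto (fun n : ℕ => ∑ i ∈ range n, (α (a n i) + α (a n (i + 1))) / 2 *
      (β (a n (i + 1)) - β (a n i))) atTop (𝓝 (∫ t in A..B, α t * deriv β t)) := by
  rw [Metric.tendsto_atTop]
  intro ε hε
  have hL : 0 < B - A := sub_pos.2 hAB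
  obtain ⟨n0, hn0⟩ := exists_nat_gt (C * C * (B - A) ^ 2 / ε)
  refine ⟨n0 + 1, fun n hn => ?_⟩
  have hn1 : 0 < n := by omega
  have hnr : (0 : ℝ) < n := by exact_mod_cast hn1
  have hmono : ∀ i, a n i ≤ a n (i + 1) := by
    intro i
    rw [ha, ha]
    push_cast
    have : (i : ℝ) / n ≤ ((i : ℝ) + 1) / n := by gcongr; linarith
    nlinarith
  have hdiff : ∀ i, a n (i + 1) - a n i = (B - A) / n := by
    intro i
    rw [ha, ha]
    push_cast
    field_simp
    ring
  have h0 : a n 0 = A := by rw [ha]; simp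
  have h1 : a n n = B := by rw [ha, div_self hnr.ne']; ring
  have hlow : ∀ i, A ≤ a n i := by
    intro i
    rw [ha]
    have : 0 ≤ (i : ℝ) / n * (B - A) := by positivity
    linarith
  have hupp : ∀ i ∈ range n, a n (i + 1) ≤ B := by
    intro i hi
    rw [Finset.mem_range] at hi
    rw [ha]
    have h2 : (((i + 1 : ℕ) : ℝ)) / n ≤ 1 := by
      rw [div_le_one hnr]
      exact_mod_cast hi
    nlinarith
  have hint : ∫ t in A..B, α t * deriv β t =
      ∑ i ∈ range n, ∫ t in (a n i)..(a n (i + 1)), α t * deriv β t := by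
    have h2 := intervalIntegral.sum_integral_adjacent_intervals (f := fun t => α t * deriv β t)
      (μ := MeasureTheory.volume) (a := a n) (n := n) (fun k hk =>
        (hα.mono (hlow k) (hupp k (Finset.mem_range.2 hk))).integrable (hmono k) hC hC
          (hβ.mono (hlow k) (hupp k (Finset.mem_range.2 hk))))
    rw [h2, h0, h1]
  rw [hint, Real.dist_eq, ← Finset.sum_sub_distrib]
  refine lt_of_le_of_lt (Finset.abs_sum_le_sum_abs _ _) ?_
  have hterm : ∀ i ∈ range n, |(α (a n i) + α (a n (i + 1))) / 2 * (β (a n (i + 1)) - β (a n i)) -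
      ∫ t in (a n i)..(a n (i + 1)), α t * deriv β t| ≤ C * ((B - A) / n) * C * ((B - A) / n) := by
    intro i hi
    have hα' := hα.mono (hlow i) (hupp i hi)
    have hβ' := hβ.mono (hlow i) (hupp i hi)
    have hac := hβ'.ac (hmono i) hC
    have e1 : β (a n (i + 1)) - β (a n i) = ∫ t in (a n i)..(a n (i + 1)), deriv β t :=
      hac.integral_deriv_eq_sub.symm
    rw [e1, ← intervalIntegral.integral_const_mul, ← intervalIntegral.integral_sub
      (hac.intervalIntegrable_deriv.const_mul _) (hα'.integrable (hmono i) hC hC hβ')]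
    have e2 := intervalIntegral.norm_integral_le_of_norm_le_const_ae (a := a n i) (b := a n (i + 1))
      (f := fun t => (α (a n i) + α (a n (i + 1))) / 2 * deriv β t - α t * deriv β t)
      (C := C * ((B - A) / n) * C) (by
        have hne : ∀ᵐ t ∂(volume : Measure ℝ), t ≠ a n (i + 1) := by
          rw [ae_iff]
          simp
        filter_upwards [hne] with t htne ht
        rw [uIoc_of_le (hmono i)] at ht
        have ht2 : t ∈ Ioo (a n i) (a n (i + 1)) := ⟨ht.1, lt_of_le_of_ne ht.2 htne⟩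
        have ht' : t ∈ Icc (a n i) (a n (i + 1)) := ⟨ht.1.le, ht.2⟩
        have e3 : (α (a n i) + α (a n (i + 1))) / 2 * deriv β t - α t * deriv β t =
            ((α (a n i) - α t) / 2 + (α (a n (i + 1)) - α t) / 2) * deriv β t := by ring
        rw [e3, norm_mul]
        have e4 : ∀ s ∈ Icc (a n i) (a n (i + 1)), |α s - α t| ≤ C * ((B - A) / n) := by
          intro s hs
          refine (hα' s hs t ht').trans ?_
          apply mul_le_mul_of_nonneg_left _ hC
          rw [← hdiff i, abs_le]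
          constructor <;> linarith [hs.1, hs.2, ht'.1, ht'.2]
        have e5 := e4 (a n i) ⟨le_rfl, hmono i⟩
        have e6 := e4 (a n (i + 1)) ⟨hmono i, le_rfl⟩
        refine mul_le_mul ?_ (by rw [Real.norm_eq_abs]; exact hβ'.deriv_le hC ht2) (norm_nonneg _)
          (by positivity)
        rw [Real.norm_eq_abs]
        rw [abs_le] at e5 e6 ⊢
        constructor <;> linarith [e5.1, e5.2, e6.1, e6.2])
    rw [Real.norm_eq_abs, hdiff i, abs_of_pos (div_pos hL hnr)] at e2
    exact e2
  refine lt_of_le_of_lt (Finset.sum_le_sum hterm) ?_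
  rw [Finset.sum_const, Finset.card_range, nsmul_eq_mul]
  have e7 : (n : ℝ) * (C * ((B - A) / n) * C * ((B - A) / n)) = C * C * (B - A) ^ 2 / n := by
    field_simp
  rw [e7, div_lt_iff₀ hnr]
  rw [div_lt_iff₀ hε] at hn0
  have : (n0 : ℝ) ≤ n := by exact_mod_cast (by omega : n0 ≤ n)
  nlinarith

/-- Loop sums of Lipschitz functions converge to the integral. -/
theorem flx {m : ℕ} (brk : Fin (m + 1) → ℝ) (hmono : StrictMono brk) (h0 : brk 0 = 0)
    (h1 : brk (Fin.last m) = 2 * Real.pi) (C : ℝ) (hC : 0 ≤ C) (α β : ℝ → ℝ)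
    (hα : LipI α 0 (2 * Real.pi) C) (hβ : LipI β 0 (2 * Real.pi) C)
    (hα2 : α (2 * Real.pi) = α 0) (hβ2 : β (2 * Real.pi) = β 0) :
    Tendsto (fun n : ℕ => loopSum brk α β n / 2) atTop
      (𝓝 (∫ t in (0 : ℝ)..(2 * Real.pi), α t * deriv β t)) := by
  have hlow : ∀ k : Fin (m + 1), 0 ≤ brk k := fun k => by
    rw [← h0]; exact hmono.monotone (Fin.zero_le k)
  have hupp : ∀ k : Fin (m + 1), brk k ≤ 2 * Real.pi := fun k => by
    rw [← h1]; exact hmono.monotone (Fin.le_last k)
  have hk : ∀ k : Fin m, Tendsto (fun n : ℕ => ∑ i ∈ range n,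
      (α (arc brk k ((i : ℝ) / n)) + α (arc brk k (((i + 1 : ℕ) : ℝ) / n))) / 2 *
        (β (arc brk k (((i + 1 : ℕ) : ℝ) / n)) - β (arc brk k ((i : ℝ) / n)))) atTop
      (𝓝 (∫ t in (brk k.castSucc)..(brk k.succ), α t * deriv β t)) := by
    intro k
    exact one_arc (brk k.castSucc) (brk k.succ) C (hmono Fin.castSucc_lt_succ) hC α β
      (hα.mono (hlow _) (hupp _)) (hβ.mono (hlow _) (hupp _))
      (fun n i => arc brk k ((i : ℝ) / n)) (fun n i => by simp only [arc])
  have hsum := tendsto_finsetSum (Finset.univ : Finset (Fin m)) fun k _ => hk k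
  have hii : ∀ k : Fin (m + 1), IntervalIntegrable (fun t => α t * deriv β t) volume 0 (brk k) :=
    fun k => (hα.mono le_rfl (hupp k)).integrable (hlow k) hC hC (hβ.mono le_rfl (hupp k))
  have hlim : ∑ k : Fin m, ∫ t in (brk k.castSucc)..(brk k.succ), α t * deriv β t =
      ∫ t in (0 : ℝ)..(2 * Real.pi), α t * deriv β t := by
    have h2 := fin_telescope (fun k : Fin (m + 1) => ∫ t in (0 : ℝ)..(brk k), α t * deriv β t)
    rw [h1, h0, intervalIntegral.integral_same, sub_zero] at h2
    rw [← h2]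
    refine Finset.sum_congr rfl fun k _ => ?_
    rw [intervalIntegral.integral_interval_sub_left (hii _) (hii _)]
  rw [hlim] at hsum
  refine hsum.congr' ?_
  filter_upwards [eventually_gt_atTop 0] with n hn
  rw [loopSum_eq brk α β (by rw [h1, h0, hα2]) (by rw [h1, h0, hβ2]) hn, Finset.sum_div]
  refine Finset.sum_congr rfl fun k _ => ?_
  rw [Finset.sum_div]
  refine Finset.sum_congr rfl fun i _ => ?_
  ring

/-! ### The boundary is a Lipschitz curve -/

lemma lip_glue {M : Type} [MetricSpace M] {m : ℕ} (brk : Fin (m + 1) → ℝ) (hmono : StrictMono brk)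
    (f : ℝ → M) (C : ℝ)
    (h : ∀ k : Fin m, ∀ s ∈ Icc (brk k.castSucc) (brk k.succ), ∀ t ∈ Icc (brk k.castSucc) (brk k.succ),
      dist (f s) (f t) ≤ C * |s - t|) :
    ∀ j : Fin (m + 1), ∀ s t : ℝ, brk 0 ≤ s → s ≤ t → t ≤ brk j → dist (f s) (f t) ≤ C * (t - s) := by
  intro j
  induction j using Fin.induction with
  | zero =>
    intro s t h1 h2 h3
    have : s = t := by linarith
    rw [this, dist_self, sub_self, mul_zero]
  | succ k ih =>
    intro s t h1 h2 h3
    rcases le_total t (brk k.castSucc) with h4 | h4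
    · exact ih s t h1 h2 h4
    · rcases le_total (brk k.castSucc) s with h5 | h5
      · have := h k s ⟨h5, h2.trans h3⟩ t ⟨h4, h3⟩
        rwa [abs_sub_comm, abs_of_nonneg (by linarith)] at this
      · have e1 := ih s (brk k.castSucc) h1 h5 le_rfl
        have e2 := h k (brk k.castSucc) ⟨le_rfl, h4.trans h3⟩ t ⟨h4, h3⟩
        rw [abs_sub_comm, abs_of_nonneg (by linarith)] at e2
        have e3 := dist_triangle (f s) (f (brk k.castSucc)) (f t)
        nlinarith

lemma side_lip (i : Fin 4) (u v : ℝ) : ‖side i u - side i v‖ ≤ |u - v| := by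
  fin_cases i <;> simp [side, Prod.norm_def, abs_sub_comm]

lemma side_mem (i : Fin 4) {u : ℝ} (hu : u ∈ Icc (0 : ℝ) 1) : side i u ∈ Sq := by
  unfold Sq
  obtain ⟨h1, h2⟩ := hu
  fin_cases i <;> simp [side] <;> constructor <;> linarith

theorem boundary_lip {M : Type} [MetricSpace M] (S : OrientedSurface M) :
    ∃ C : ℝ, 0 ≤ C ∧ ∀ s ∈ Icc (0 : ℝ) (2 * Real.pi), ∀ t ∈ Icc (0 : ℝ) (2 * Real.pi),
      dist (S.boundary (s : AddCircle (2 * Real.pi))) (S.boundary (t : AddCircle (2 * Real.pi)))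
        ≤ C * |s - t| := by
  have hb := fun k => (S.metric k).exists_bound
  choose D hD0 hD using hb
  set len : Fin S.arcs → ℝ := fun k => S.brk k.succ - S.brk k.castSucc with hlen
  have hlen0 : ∀ k, 0 < len k := fun k => sub_pos.2 (S.brk_strictMono Fin.castSucc_lt_succ)
  set C : ℝ := ∑ k : Fin S.arcs, D (S.arcSide k).1 / len k with hC
  have hterm0 : ∀ k, 0 ≤ D (S.arcSide k).1 / len k := fun k => div_nonneg (hD0 _) (hlen0 k).le
  have hC0 : 0 ≤ C := Finset.sum_nonneg fun k _ => hterm0 k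
  have hCk : ∀ k, D (S.arcSide k).1 / len k ≤ C := fun k =>
    Finset.single_le_sum (f := fun k => D (S.arcSide k).1 / len k) (fun i _ => hterm0 i)
      (Finset.mem_univ k)
  have harc : ∀ k : Fin S.arcs, ∀ s ∈ Icc (S.brk k.castSucc) (S.brk k.succ),
      ∀ t ∈ Icc (S.brk k.castSucc) (S.brk k.succ),
      dist (S.boundary (s : AddCircle (2 * Real.pi))) (S.boundary (t : AddCircle (2 * Real.pi)))
        ≤ C * |s - t| := by
    intro k s hs t ht
    set u : ℝ := (s - S.brk k.castSucc) / len k with hu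
    set v : ℝ := (t - S.brk k.castSucc) / len k with hv
    have hl := hlen0 k
    have hum : u ∈ Icc (0 : ℝ) 1 := by
      constructor
      · exact div_nonneg (by linarith [hs.1]) hl.le
      · rw [hu, div_le_one hl, hlen]; simp only; linarith [hs.2]
    have hvm : v ∈ Icc (0 : ℝ) 1 := by
      constructor
      · exact div_nonneg (by linarith [ht.1]) hl.le
      · rw [hv, div_le_one hl, hlen]; simp only; linarith [ht.2]
    have e1 : S.brk k.castSucc + u * (S.brk k.succ - S.brk k.castSucc) = s := by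
      rw [hu]
      have : S.brk k.succ - S.brk k.castSucc = len k := rfl
      rw [this, div_mul_cancel₀ _ hl.ne']; ring
    have e2 : S.brk k.castSucc + v * (S.brk k.succ - S.brk k.castSucc) = t := by
      rw [hv]
      have : S.brk k.succ - S.brk k.castSucc = len k := rfl
      rw [this, div_mul_cancel₀ _ hl.ne']; ring
    have b1 := S.boundary_eq k u hum
    have b2 := S.boundary_eq k v hvm
    rw [e1] at b1
    rw [e2] at b2
    rw [← b1, ← b2]
    set p := side (S.arcSide k).2 u with hp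
    set q := side (S.arcSide k).2 v with hq
    have hpS : p ∈ Sq := side_mem _ hum
    have hqS : q ∈ Sq := side_mem _ hvm
    have h3 := S.dist_le (S.arcSide k).1 p hpS q hqS
    have h4 : (S.metric (S.arcSide k).1).segLength p q ≤ D (S.arcSide k).1 * ‖q - p‖ :=
      (S.metric (S.arcSide k).1).segLength_le _ fun τ h0 h1 =>
        hD _ _ (seg_mem hpS hqS h0 h1) _
    have h5 : ‖q - p‖ ≤ |s - t| / len k := by
      refine (side_lip _ _ _).trans ?_
      rw [hu, hv, ← sub_div, abs_div, abs_of_pos hl, abs_sub_comm]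
      apply le_of_eq
      congr 2
      ring
    calc dist (S.chart (S.arcSide k).1 p) (S.chart (S.arcSide k).1 q)
        ≤ D (S.arcSide k).1 * ‖q - p‖ := h3.trans h4
      _ ≤ D (S.arcSide k).1 * (|s - t| / len k) := mul_le_mul_of_nonneg_left h5 (hD0 _)
      _ = D (S.arcSide k).1 / len k * |s - t| := by ring
      _ ≤ C * |s - t| := mul_le_mul_of_nonneg_right (hCk k) (abs_nonneg _)
  have hglue := lip_glue S.brk S.brk_strictMono
    (fun s : ℝ => S.boundary (s : AddCircle (2 * Real.pi))) C harc (Fin.last _)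
  rw [S.brk_zero, S.brk_last] at hglue
  refine ⟨C, hC0, fun s hs t ht => ?_⟩
  rcases le_total s t with h | h
  · have := hglue s t hs.1 h ht.2
    rwa [abs_sub_comm, abs_of_nonneg (by linarith)]
  · have := hglue t s ht.1 h hs.2
    rw [abs_of_nonneg (by linarith), dist_comm]
    exact this

end Pool.Agent.K9h13.SD
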