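import Mathlib
import Pool.Agent.N979.CAP.Stm

/-! # Riemann sums over the directions, uniformly over a disc -/

set_option autoImplicit false

namespace Pool.Agent.K9h13.SD

open Real MeasureTheory Set Filter Topology Finset
open Pool.Agent.N979.CAP

noncomputable def f1 (ψ s : ℝ) : ℝ := s * (sin ψ * cos ψ) / DD s ψ

noncomputable def f2 (ψ s : ℝ) : ℝ := s * sin ψ ^ 2 / DD s ψ

lemma DDpos {s : ℝ} (hs0 : 0 ≤ s) (hs1 : s < 1) (ψ : ℝ) : 0 < DD s ψ := by
  unfold DD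
  have h1 : cos ψ ^ 2 ≤ 1 := cos_sq_le_one ψ
  have h2 : 0 ≤ cos ψ ^ 2 := sq_nonneg _
  have h3 : s ^ 2 < 1 := by nlinarith
  nlinarith [sq_nonneg s]

lemma f1_per (ψ s : ℝ) : f1 (ψ + π) s = f1 ψ s := by
  unfold f1 DD
  rw [sin_add_pi, cos_add_pi]
  ring

lemma f2_per (ψ s : ℝ) : f2 (ψ + π) s = f2 ψ s := by
  unfold f2 DD
  rw [sin_add_pi, cos_add_pi]
  ring

lemma f1_cont {s₁ : ℝ} (h1 : s₁ < 1) :
    ContinuousOn (fun p : ℝ × ℝ => f1 p.1 p.2) (Set.univ ×ˢ Set.Icc 0 s₁) := by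
  unfold f1
  apply ContinuousOn.div
  · fun_prop
  · unfold DD; fun_prop
  · rintro ⟨ψ, s⟩ ⟨_, h2⟩
    exact (DDpos h2.1 (lt_of_le_of_lt h2.2 h1) ψ).ne'

lemma f2_cont {s₁ : ℝ} (h1 : s₁ < 1) :
    ContinuousOn (fun p : ℝ × ℝ => f2 p.1 p.2) (Set.univ ×ˢ Set.Icc 0 s₁) := by
  unfold f2
  apply ContinuousOn.div
  · fun_prop
  · unfold DD; fun_prop
  · rintro ⟨ψ, s⟩ ⟨_, h2⟩
    exact (DDpos h2.1 (lt_of_le_of_lt h2.2 h1) ψ).ne'

lemma f1_int (hI : S_INT) (s : ℝ) : ∫ ψ in (0 : ℝ)..π, f1 ψ s = 0 := by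
  refine Eq.trans ?_ (hI.odd (fun c => s / (1 - s ^ 2 * c)))
  apply intervalIntegral.integral_congr
  intro ψ _
  simp only [f1, DD]
  ring

lemma f2_int (hI : S_INT) (s : ℝ) (h0 : 0 ≤ s) (h1 : s < 1) :
    ∫ ψ in (0 : ℝ)..π, f2 ψ s = π * s / (1 + √(1 - s ^ 2)) := by
  rcases h0.eq_or_lt with h | hs
  · rw [← h]
    simp [f2]
  have hsq : 0 < 1 - s ^ 2 := by nlinarith
  have hr : 0 < √(1 - s ^ 2) := Real.sqrt_pos.mpr hsq
  have hr2 : √(1 - s ^ 2) ^ 2 = 1 - s ^ 2 := Real.sq_sqrt hsq.le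
  have hcont : Continuous fun ψ => 1 / DD s ψ := by
    apply Continuous.div continuous_const
    · unfold DD; fun_prop
    · exact fun ψ => (DDpos h0 h1 ψ).ne'
  have e1 : ∀ ψ, f2 ψ s = 1 / s * (1 - (1 - s ^ 2) * (1 / DD s ψ)) := by
    intro ψ
    have hD := (DDpos h0 h1 ψ).ne'
    unfold f2
    have e2 : s * sin ψ ^ 2 = 1 / s * (DD s ψ - (1 - s ^ 2)) := by
      unfold DD
      rw [sin_sq]
      field_simp
      ring
    rw [e2]
    field_simp
  simp_rw [e1]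
  rw [intervalIntegral.integral_const_mul, intervalIntegral.integral_sub (by simp)
    ((hcont.intervalIntegrable _ _).const_mul _), intervalIntegral.integral_const_mul,
    hI.one s h0 h1]
  simp only [intervalIntegral.integral_const, sub_zero, smul_eq_mul, mul_one]
  have hp := Real.pi_pos
  field_simp
  nlinarith [hr2]

/-- Riemann sums over the directions. -/
theorem rs (hI : S_INT) (hR : S_RIE) (s₁ : ℝ) (h0 : 0 ≤ s₁) (h1 : s₁ < 1) :
    ∀ ε > 0, ∃ N₀ : ℕ, ∀ N ≥ N₀, ∀ x y : ℝ, x ^ 2 + y ^ 2 ≤ s₁ ^ 2 → ∀ u v : ℝ,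
      |π / N * ∑ j ∈ range N, 2 / π * (x * sin (th N j) - y * cos (th N j))
          * (cos (th N j) * u + sin (th N j) * v) / (1 - dt x y (th N j) ^ 2)
        - 2 * kk x y * (x * v - y * u)| ≤ ε * (|u| + |v|) := by
  intro ε hε
  have hp := Real.pi_pos
  obtain ⟨N₁, hN₁⟩ := hR s₁ h0 f1 (f1_cont h1) f1_per (π * ε / 4) (by positivity)
  obtain ⟨N₂, hN₂⟩ := hR s₁ h0 f2 (f2_cont h1) f2_per (π * ε / 4) (by positivity)
  refine ⟨max N₁ N₂, fun N hN x y hxy u v => ?_⟩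
  set z : ℂ := ⟨x, y⟩ with hz
  set s : ℝ := ‖z‖ with hs
  set φ : ℝ := Complex.arg z with hφ
  have hx : x = s * cos φ := (Complex.norm_mul_cos_arg z).symm
  have hy : y = s * sin φ := (Complex.norm_mul_sin_arg z).symm
  have hs0 : 0 ≤ s := norm_nonneg z
  have hs2 : x ^ 2 + y ^ 2 = s ^ 2 := by
    rw [hx, hy]
    nlinarith [sin_sq_add_cos_sq φ]
  have hss1 : s ≤ s₁ := by
    apply le_of_sq_le_sq _ h0
    rw [← hs2]; exact hxy
  have hs1 : s < 1 := lt_of_le_of_lt hss1 h1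
  have k1 := hN₁ N ((le_max_left _ _).trans hN) s ⟨hs0, hss1⟩ φ
  have k2 := hN₂ N ((le_max_right _ _).trans hN) s ⟨hs0, hss1⟩ φ
  rw [f1_int hI] at k1
  rw [f2_int hI s hs0 hs1] at k2
  set R1 := π / N * ∑ j ∈ range N, f1 (π * j / N - φ) s with hR1
  set R2 := π / N * ∑ j ∈ range N, f2 (π * j / N - φ) s with hR2
  set U := u * cos φ + v * sin φ with hU
  set V := v * cos φ - u * sin φ with hV
  have e1 : π / N * ∑ j ∈ range N, 2 / π * (x * sin (th N j) - y * cos (th N j))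
          * (cos (th N j) * u + sin (th N j) * v) / (1 - dt x y (th N j) ^ 2)
      = 2 / π * (U * R1 + V * R2) := by
    rw [hR1, hR2]
    have e2 : 2 / π * (U * (π / N * ∑ j ∈ range N, f1 (π * j / N - φ) s)
        + V * (π / N * ∑ j ∈ range N, f2 (π * j / N - φ) s))
        = π / N * ∑ j ∈ range N, 2 / π * (U * f1 (π * j / N - φ) s + V * f2 (π * j / N - φ) s) := by
      rw [← Finset.mul_sum, Finset.sum_add_distrib, ← Finset.mul_sum, ← Finset.mul_sum]
      ring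
    rw [e2]
    congr 1
    apply Finset.sum_congr rfl
    intro j _
    set ψ : ℝ := π * j / N - φ with hψ
    have hth : th N j = ψ + φ := by rw [hψ]; unfold th; ring
    have a1 : x * sin (th N j) - y * cos (th N j) = s * sin ψ := by
      have : ψ = th N j - φ := by rw [hth]; ring
      rw [this, sin_sub, hx, hy]; ring
    have a2 : dt x y (th N j) = s * cos ψ := by
      have : ψ = th N j - φ := by rw [hth]; ring
      unfold dt
      rw [this, cos_sub, hx, hy]; ring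
    have a3 : cos (th N j) * u + sin (th N j) * v = U * cos ψ + V * sin ψ := by
      rw [hth, cos_add, sin_add, hU, hV]; ring
    rw [a1, a2, a3]
    unfold f1 f2 DD
    rw [mul_pow]
    ring
  have e3 : 2 * kk x y * (x * v - y * u) = 2 / π * (V * (π * s / (1 + √(1 - s ^ 2)))) := by
    have b1 : kk x y = 1 / (1 + √(1 - s ^ 2)) := by
      unfold kk
      rw [sub_sub, hs2]
    have b2 : x * v - y * u = s * V := by
      rw [hV, hx, hy]; ring
    rw [b1, b2]
    field_simp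
  rw [e1, e3]
  have e4 : 2 / π * (U * R1 + V * R2) - 2 / π * (V * (π * s / (1 + √(1 - s ^ 2))))
      = 2 / π * (U * (R1 - 0) + V * (R2 - π * s / (1 + √(1 - s ^ 2)))) := by ring
  rw [e4, abs_mul, abs_of_pos (by positivity : (0 : ℝ) < 2 / π)]
  have hUa : |U| ≤ |u| + |v| := by
    rw [hU]
    refine (abs_add_le _ _).trans ?_
    rw [abs_mul, abs_mul]
    have := mul_le_mul_of_nonneg_left (abs_cos_le_one φ) (abs_nonneg u)
    have := mul_le_mul_of_nonneg_left (abs_sin_le_one φ) (abs_nonneg v)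
    linarith
  have hVa : |V| ≤ |u| + |v| := by
    rw [hV, sub_eq_add_neg]
    refine (abs_add_le _ _).trans ?_
    rw [abs_neg, abs_mul, abs_mul]
    have := mul_le_mul_of_nonneg_left (abs_sin_le_one φ) (abs_nonneg u)
    have := mul_le_mul_of_nonneg_left (abs_cos_le_one φ) (abs_nonneg v)
    linarith
  have hw : 0 ≤ |u| + |v| := by positivity
  have h5 : |U * (R1 - 0) + V * (R2 - π * s / (1 + √(1 - s ^ 2)))|
      ≤ (|u| + |v|) * (π * ε / 4) + (|u| + |v|) * (π * ε / 4) := by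
    refine (abs_add_le _ _).trans ?_
    rw [abs_mul, abs_mul]
    exact add_le_add (mul_le_mul hUa k1 (abs_nonneg _) hw) (mul_le_mul hVa k2 (abs_nonneg _) hw)
  calc 2 / π * |U * (R1 - 0) + V * (R2 - π * s / (1 + √(1 - s ^ 2)))|
      ≤ 2 / π * ((|u| + |v|) * (π * ε / 4) + (|u| + |v|) * (π * ε / 4)) :=
        mul_le_mul_of_nonneg_left h5 (by positivity)
    _ = ε * (|u| + |v|) := by field_simp; ring

end Pool.Agent.K9h13.SD
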