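import Mathlib
import Pool.Agent.N979.CAP.Fin
import Pool.Agent.K9h13.SD.Flx
import Pool.Agent.K9h13.SD.Rs
import Pool.Agent.K9h13.SD.Ext

/-! # The flux through a curve in a spherical cap -/

set_option autoImplicit false

namespace Pool.Agent.K9h13.SD

open Real MeasureTheory Set Filter Topology Finset
open Pool.Agent.H115R3.Filling Pool.Agent.W664.Fill Pool.Agent.N979.CAP

/-- Values of `X` on the boundary. -/
lemma bdry_pt (hM : S_MON) {N : ℕ} (hN : 2 ≤ N) {a b x y : ℝ} (hab : a ^ 2 + b ^ 2 ≤ 1)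
    (hxy : x ^ 2 + y ^ 2 ≤ 1)
    (h1 : Z1 N x y = Z1 N a b) (h2 : Z2 N x y = Z2 N a b) : x = a ∧ y = b := by
  have h3 := hM N hN x y a b hxy hab
  rw [h1, h2, sub_self, sub_self, zero_mul, zero_mul, add_zero] at h3
  have hp := Real.pi_pos
  have h4 : (x - a) ^ 2 + (y - b) ^ 2 ≤ 0 := by
    by_contra h
    push Not at h
    have := mul_pos (half_pos hp) h
    linarith
  constructor
  · have : (x - a) ^ 2 = 0 := by nlinarith [sq_nonneg (x - a), sq_nonneg (y - b)]
    have := pow_eq_zero_iff (two_ne_zero) |>.mp this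
    linarith
  · have : (y - b) ^ 2 = 0 := by nlinarith [sq_nonneg (x - a), sq_nonneg (y - b)]
    have := pow_eq_zero_iff (two_ne_zero) |>.mp this
    linarith

lemma continuous_kk : Continuous (fun p : ℝ × ℝ => kk p.1 p.2) := by
  unfold kk
  apply Continuous.div continuous_const (by fun_prop)
  intro p
  have := Real.sqrt_nonneg (1 - p.1 ^ 2 - p.2 ^ 2)
  positivity

lemma dt_sq_lt {x y s θ : ℝ} (hs : s < 1) (hs0 : 0 ≤ s) (h : x ^ 2 + y ^ 2 ≤ s ^ 2) :
    dt x y θ ^ 2 < 1 := by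
  have h1 : dt x y θ ^ 2 ≤ x ^ 2 + y ^ 2 := by
    unfold dt
    nlinarith [sq_nonneg (x * sin θ - y * cos θ), sin_sq_add_cos_sq θ]
  nlinarith

lemma hasDerivAt_asin {x y : ℝ → ℝ} {t θ : ℝ} (hx : DifferentiableAt ℝ x t)
    (hy : DifferentiableAt ℝ y t) (h : dt (x t) (y t) θ ^ 2 < 1) :
    HasDerivAt (fun t => arcsin (dt (x t) (y t) θ))
      ((cos θ * deriv x t + sin θ * deriv y t) / √(1 - dt (x t) (y t) θ ^ 2)) t := by
  have hlt : |dt (x t) (y t) θ| < 1 := by
    rwa [sq_lt_one_iff_abs_lt_one] at h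
  have hlt' := abs_lt.mp hlt
  have h1 : HasDerivAt (fun t => dt (x t) (y t) θ) (cos θ * deriv x t + sin θ * deriv y t) t := by
    unfold dt
    have := (hx.hasDerivAt.mul_const (cos θ)).add (hy.hasDerivAt.mul_const (sin θ))
    refine this.congr_deriv ?_
    ring
  have h4 := (Real.hasDerivAt_arcsin (x := dt (x t) (y t) θ) (by linarith [hlt'.1])
    (by linarith [hlt'.2])).comp t h1
  refine h4.congr_deriv ?_
  ring

lemma alg1 {N K e q D A B : ℝ} (hN : N ≠ 0) (hK : K ≠ 0) (he : e ≠ 0) (hq : q ≠ 0)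
    (hD : q * q = D) : π / N * K / e * ((2 / π * A / q) / K * (B / q))
      = (π / N * (2 / π * A * B / D)) / e := by
  subst hD
  have := Real.pi_pos
  field_simp

lemma alg2 {K e k x v : ℝ} (hK : K ≠ 0) (he : e ≠ 0) :
    -(K * 2 / e) * (x * k / K * (v / 2)) = -(k * (x * v)) / e := by
  field_simp

lemma alg3 {K e k y u : ℝ} (hK : K ≠ 0) (he : e ≠ 0) :
    K * 2 / e * (y * k / K * (u / 2)) = k * (y * u) / e := by
  field_simp

lemma alg4 {R k a b E F : ℝ} (h : -E ≤ R - 2 * k * (a - b)) (hE : E ≤ F) :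
    k * (a - b) - F ≤ R + -(k * a) + k * b := by
  have e : R - 2 * k * (a - b) = R - 2 * (k * a) + 2 * (k * b) := by ring
  rw [e] at h
  have e2 : k * (a - b) = k * a - k * b := by ring
  rw [e2]
  linarith

/-- the area enclosed by the curve with coordinates `x`, `y` -/
noncomputable def encl (x y : ℝ → ℝ) : ℝ :=
  ∫ t in (0 : ℝ)..(2 * π), kk (x t) (y t) * (x t * deriv y t - y t * deriv x t)

/-- The flux of the calibrating form. -/
theorem flux_ge (N : ℕ) (hN0 : (0 : ℝ) < N) (x y : ℝ → ℝ) (s₀ C ε K : ℝ) (h0 : 0 < s₀) (hs1 : s₀ < 1)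
    (hxy : ∀ t, x t ^ 2 + y t ^ 2 ≤ s₀ ^ 2) (hC0 : 0 ≤ C) (hε : 0 < ε) (hKpos : 0 < K)
    (hN₃ : ∀ x y : ℝ, x ^ 2 + y ^ 2 ≤ s₀ ^ 2 → ∀ u v : ℝ,
      |π / N * ∑ j ∈ range N, 2 / π * (x * sin (th N j) - y * cos (th N j))
          * (cos (th N j) * u + sin (th N j) * v) / (1 - dt x y (th N j) ^ 2)
        - 2 * kk x y * (x * v - y * u)| ≤ ε * (|u| + |v|))
    (hxl : LipI x 0 (2 * π) (2 * C)) (hyl : LipI y 0 (2 * π) (2 * C)) (α β : ℕ → ℝ → ℝ)
    (hαl : ∀ i, LipI (α i) 0 (2 * π) C) (hβl : ∀ i, LipI (β i) 0 (2 * π) C)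
    (hα1 : ∀ i < N, ∀ t, α i t = hh (th N i) (x t) (y t) / K)
    (hα2 : ∀ t, α N t = x t * kk (x t) (y t) / K)
    (hα3 : ∀ t, α (N + 1) t = y t * kk (x t) (y t) / K)
    (hβ1 : ∀ i < N, β i = fun t => arcsin (dt (x t) (y t) (th N i)))
    (hβ2 : β N = fun t => y t / 2) (hβ3 : β (N + 1) = fun t => x t / 2) :
    (encl x y - 8 * π * C * ε) / (1 + ε) ≤
      ∑ i ∈ range (N + 2), cf N K ε i * ∫ t in (0 : ℝ)..(2 * π), α i t * deriv (β i) t := by
  have hpi := Real.pi_pos
  have h2pi : (0 : ℝ) ≤ 2 * π := by positivity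
  have h1ε : 1 + ε ≠ 0 := by positivity
  have h2C : 0 ≤ 2 * C := by positivity
  have hxac := hxl.ac h2pi h2C
  have hyac := hyl.ac h2pi h2C
  have hint : ∀ i, IntervalIntegrable (fun t => α i t * deriv (β i) t) volume 0 (2 * π) :=
    fun i => (hαl i).integrable h2pi hC0 hC0 (hβl i)
  have e1 : ∑ i ∈ range (N + 2), cf N K ε i * ∫ t in (0 : ℝ)..(2 * π), α i t * deriv (β i) t
      = ∫ t in (0 : ℝ)..(2 * π), ∑ i ∈ range (N + 2), cf N K ε i * (α i t * deriv (β i) t) := by
    rw [intervalIntegral.integral_finset_sum (fun i _ => (hint i).const_mul _)]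
    apply Finset.sum_congr rfl
    intro i _
    rw [intervalIntegral.integral_const_mul]
  have hkc : ContinuousOn (fun t => kk (x t) (y t)) (uIcc 0 (2 * π)) := by
    rw [uIcc_of_le h2pi]
    unfold kk
    have h1 := hxl.cont h2C
    have h2 := hyl.cont h2C
    apply ContinuousOn.div continuousOn_const
    · exact continuousOn_const.add ((((continuousOn_const.sub (h1.pow 2)).sub (h2.pow 2))).sqrt)
    · intro t _
      have := Real.sqrt_nonneg (1 - x t ^ 2 - y t ^ 2)
      positivity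
  have hxc : ContinuousOn x (uIcc 0 (2 * π)) := by
    rw [uIcc_of_le h2pi]; exact hxl.cont h2C
  have hyc : ContinuousOn y (uIcc 0 (2 * π)) := by
    rw [uIcc_of_le h2pi]; exact hyl.cont h2C
  have hgi : IntervalIntegrable (fun t => kk (x t) (y t) * (x t * deriv y t - y t * deriv x t))
      volume 0 (2 * π) :=
    ((hyac.intervalIntegrable_deriv.continuousOn_mul hxc).sub
      (hxac.intervalIntegrable_deriv.continuousOn_mul hyc)).continuousOn_mul hkc
  have e2 : (encl x y - 8 * π * C * ε) / (1 + ε) = ∫ t in (0 : ℝ)..(2 * π),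
      (kk (x t) (y t) * (x t * deriv y t - y t * deriv x t) - 4 * C * ε) / (1 + ε) := by
    rw [intervalIntegral.integral_div, intervalIntegral.integral_sub hgi (by simp)]
    simp only [intervalIntegral.integral_const, sub_zero, smul_eq_mul]
    unfold encl
    ring
  rw [e1, e2]
  apply intervalIntegral.integral_mono_ae_restrict h2pi
  · exact (hgi.sub (by simp)).div_const _
  · have := IntervalIntegrable.sum (μ := volume) (a := 0) (b := 2 * π) (range (N + 2))
      (f := fun i t => cf N K ε i * (α i t * deriv (β i) t)) (fun i _ => (hint i).const_mul _)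
    refine this.congr_ae ?_
    exact Eventually.of_forall fun t => by simp only [Finset.sum_apply]
  · have hne0 : ∀ᵐ t ∂(volume.restrict (Set.Icc (0 : ℝ) (2 * π))), t ≠ 0 := by
      apply ae_restrict_of_ae
      rw [ae_iff]; simp
    have hne1 : ∀ᵐ t ∂(volume.restrict (Set.Icc (0 : ℝ) (2 * π))), t ≠ 2 * π := by
      apply ae_restrict_of_ae
      rw [ae_iff]; simp
    filter_upwards [ae_restrict_of_ae hxac.ae_differentiableAt,
      ae_restrict_of_ae hyac.ae_differentiableAt, hne0, hne1,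
      ae_restrict_mem measurableSet_Icc] with t ht1 ht2 ht3 ht4 ht5
    rw [uIcc_of_le h2pi] at ht1 ht2
    have hxd := ht1 ht5
    have hyd := ht2 ht5
    have htI : t ∈ Set.Ioo (0 : ℝ) (2 * π) :=
      ⟨lt_of_le_of_ne ht5.1 (Ne.symm ht3), lt_of_le_of_ne ht5.2 ht4⟩
    have hx' := hxl.deriv_le h2C htI
    have hy' := hyl.deriv_le h2C htI
    have hr := hN₃ (x t) (y t) (hxy t) (deriv x t) (deriv y t)
    rw [Finset.sum_range_succ, Finset.sum_range_succ]
    have d1 : ∀ i ∈ range N, cf N K ε i * (α i t * deriv (β i) t)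
        = (π / N * (2 / π * (x t * sin (th N i) - y t * cos (th N i))
        * (cos (th N i) * deriv x t + sin (th N i) * deriv y t)
          / (1 - dt (x t) (y t) (th N i) ^ 2))) / (1 + ε) := by
      intro i hi
      have hi' := Finset.mem_range.mp hi
      have hlt := dt_sq_lt (θ := th N i) hs1 h0.le (hxy t)
      rw [hβ1 i hi', (hasDerivAt_asin hxd hyd hlt).deriv, hα1 i hi']
      simp only [cf, if_pos hi']
      unfold hh
      have hsq : √(1 - dt (x t) (y t) (th N i) ^ 2) * √(1 - dt (x t) (y t) (th N i) ^ 2)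
          = 1 - dt (x t) (y t) (th N i) ^ 2 := Real.mul_self_sqrt (sub_nonneg.2 hlt.le)
      have hsp : √(1 - dt (x t) (y t) (th N i) ^ 2) ≠ 0 := (Real.sqrt_pos.2 (sub_pos.2 hlt)).ne'
      exact alg1 hN0.ne' hKpos.ne' h1ε hsp hsq
    rw [Finset.sum_congr rfl d1]
    have d2 : cf N K ε N * (α N t * deriv (β N) t)
        = -(kk (x t) (y t) * (x t * deriv y t)) / (1 + ε) := by
      rw [hβ2, deriv_div_const, hα2]
      simp only [cf, lt_irrefl, if_false, if_true]
      exact alg2 hKpos.ne' h1ε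
    have d3 : cf N K ε (N + 1) * (α (N + 1) t * deriv (β (N + 1)) t)
        = (kk (x t) (y t) * (y t * deriv x t)) / (1 + ε) := by
      have n1 : ¬ (N + 1 < N) := by omega
      have n2 : ¬ (N + 1 = N) := by omega
      rw [hβ3, deriv_div_const, hα3]
      simp only [cf, if_neg n1, if_neg n2]
      exact alg3 hKpos.ne' h1ε
    rw [d2, d3, ← Finset.sum_div, ← Finset.mul_sum, ← add_div, ← add_div]
    apply div_le_div_of_nonneg_right _ (by linarith)
    have hr' := (abs_le.1 hr).1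
    have hbound : ε * (|deriv x t| + |deriv y t|) ≤ 4 * C * ε :=
      (mul_le_mul_of_nonneg_left (add_le_add hx' hy') hε.le).trans (le_of_eq (by ring))
    exact alg4 hr' hbound

end Pool.Agent.K9h13.SD
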