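import Mathlib
import Pool.Agent.K9h13.SD.Fx
import Pool.Agent.K9h55.FA.Fin

/-! # Curves in a spherical cap: the area of a surface is at least the area enclosed by the curve -/

set_option autoImplicit false

namespace Pool.Agent.K9h13.SD

open Real MeasureTheory Set Filter Topology Finset
open Pool.Agent.H115R3.Filling Pool.Agent.W664.Fill Pool.Agent.N979.CAP
open Pool.Agent.K9h55.FA

section Main

variable {M : Type} [MetricSpace M]

theorem dom_eps (hI : S_INT) (hR : S_RIE) (hE : S_EXI) (hM : S_MON) (hB : S_BND2)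
    (hL : S_LIP) (hP : S_PTW2) (S : OrientedSurface M) (x y : ℝ → ℝ) (s₀ : ℝ) (h0 : 0 < s₀)
    (h1 : s₀ ^ 2 ≤ 9 / 10) (hxy : ∀ t, x t ^ 2 + y t ^ 2 ≤ s₀ ^ 2)
    (hd : ∀ θ s t : ℝ, arcsin (dt (x s) (y s) θ) ≤ arcsin (dt (x t) (y t) θ) +
      dist (S.boundary (s : AddCircle (2 * π))) (S.boundary (t : AddCircle (2 * π))))
    (C : ℝ) (hC0 : 0 ≤ C) (hC : ∀ s ∈ Set.Icc (0 : ℝ) (2 * π), ∀ t ∈ Set.Icc (0 : ℝ) (2 * π),
      dist (S.boundary (s : AddCircle (2 * π))) (S.boundary (t : AddCircle (2 * π)))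
        ≤ C * |s - t|)
    (ε : ℝ) (hε : 0 < ε) : (encl x y - 8 * π * C * ε) / (1 + ε) ≤ S.area := by
  have hpi := Real.pi_pos
  have hs1 : s₀ < 1 := by nlinarith
  obtain ⟨G, G1, G2, G3, G4, G5⟩ := ext_curve
    (fun t : ℝ => S.boundary (t : AddCircle (2 * π))) x y s₀ h0.le hs1.le hxy hd
  obtain ⟨K₀, hK1, hK⟩ := hL (593 / 625) (by norm_num) (by norm_num)
  obtain ⟨N₁, hN₁⟩ := hB s₀ h0 h1
  obtain ⟨N₂, hN₂⟩ := hP ε hε
  obtain ⟨N₃, hN₃⟩ := rs hI hR s₀ h0.le hs1 ε hε
  obtain ⟨N, hN⟩ : ∃ N, N = max (max (max N₁ N₂) N₃) 2 := ⟨_, rfl⟩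
  have hN2 : 2 ≤ N := hN ▸ le_max_right _ _
  have hNN1 : N₁ ≤ N := hN ▸ ((le_max_left _ _).trans (le_max_left _ _)).trans (le_max_left _ _)
  have hNN2 : N₂ ≤ N := hN ▸ ((le_max_right _ _).trans (le_max_left _ _)).trans (le_max_left _ _)
  have hNN3 : N₃ ≤ N := hN ▸ (le_max_right _ _).trans (le_max_left _ _)
  have hN0 : (0 : ℝ) < N := by
    have : 0 < N := by omega
    exact_mod_cast this
  -- the point X
  have hex : ∀ x : M, ∃ X : ℝ × ℝ, X.1 ^ 2 + X.2 ^ 2 < (593 / 625) ^ 2 ∧
      Z1 N X.1 X.2 = π / N * ∑ j ∈ range N, cos (th N j) * G (th N j) x ∧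
      Z2 N X.1 X.2 = π / N * ∑ j ∈ range N, sin (th N j) * G (th N j) x := by
    intro x
    have h2 := hN₁ N hNN1 (fun θ => G θ x) (fun θ => G2 θ x) (fun θ => G3 θ x)
      (fun θ θ' => (G4 θ θ' x).trans (Pool.Agent.N46.CAP_EXT.two_arcsin_le s₀ h0.le hs1.le _))
      (fun θ θ' => G4 θ θ' x)
    obtain ⟨a, b, hab, e1, e2⟩ := hE N hN2 (593 / 625) (by norm_num) (by norm_num)
      (π / N * ∑ j ∈ range N, cos (th N j) * G (th N j) x)
      (π / N * ∑ j ∈ range N, sin (th N j) * G (th N j) x) (by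
        intro φ
        have h3 := h2 φ
        refine lt_of_eq_of_lt ?_ h3
        rw [mul_assoc, mul_assoc, ← mul_add, Finset.sum_mul, Finset.sum_mul,
          ← Finset.sum_add_distrib]
        congr 1
        apply Finset.sum_congr rfl
        intro j _
        rw [cos_sub]; ring)
    exact ⟨(a, b), hab, e1, e2⟩
  choose X hXd hXZ1 hXZ2 using hex
  set X1 : M → ℝ := fun x => (X x).1 with hX1
  set X2 : M → ℝ := fun x => (X x).2 with hX2
  have hlip := lip_X hM G1 hN2 (X1 := X1) (X2 := X2) (s₁ := 593 / 625) (by norm_num)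
    (by norm_num) hXd hXZ1 hXZ2
  have hbd : ∀ t : ℝ, X1 (S.boundary (t : AddCircle (2 * π))) = x t ∧
      X2 (S.boundary (t : AddCircle (2 * π))) = y t := by
    intro t
    apply bdry_pt hM hN2 (by nlinarith [hxy t])
    · have := hXd (S.boundary (t : AddCircle (2 * π)))
      simp only [hX1, hX2]
      nlinarith
    · rw [hXZ1, Z1]; simp only [G5]
    · rw [hXZ2, Z2]; simp only [G5]
  set K : ℝ := 4 * K₀ with hKK
  have hKpos : 0 < K := by positivity
  have h1ε : 1 + ε ≠ 0 := by positivity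
  have hdisc : ∀ x, X1 x ^ 2 + X2 x ^ 2 ≤ (593 / 625) ^ 2 := fun x => (hXd x).le
  -- Lipschitz
  have hU : ∀ i x y, |fU N K X1 X2 i x - fU N K X1 X2 i y| ≤ dist x y := by
    intro i x y
    obtain ⟨l1, l2⟩ := hlip x y
    obtain ⟨k1, k2, k3⟩ := hK _ _ _ _ (hdisc x) (hdisc y)
    have hb : K₀ * (|X1 x - X1 y| + |X2 x - X2 y|) ≤ K * dist x y := by
      have : |X1 x - X1 y| + |X2 x - X2 y| ≤ 4 * dist x y := by linarith
      calc K₀ * (|X1 x - X1 y| + |X2 x - X2 y|) ≤ K₀ * (4 * dist x y) :=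
            mul_le_mul_of_nonneg_left this (by linarith)
        _ = K * dist x y := by rw [hKK]; ring
    unfold fU
    split_ifs
    · rw [← sub_div, abs_div, abs_of_pos hKpos, div_le_iff₀ hKpos, mul_comm (dist x y)]
      exact (k1 _).trans hb
    · rw [← sub_div, abs_div, abs_of_pos hKpos, div_le_iff₀ hKpos, mul_comm (dist x y)]
      exact k2.trans hb
    · rw [← sub_div, abs_div, abs_of_pos hKpos, div_le_iff₀ hKpos, mul_comm (dist x y)]
      exact k3.trans hb
  have hW : ∀ i x y, |fW N G X1 X2 i x - fW N G X1 X2 i y| ≤ dist x y := by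
    intro i x y
    obtain ⟨l1, l2⟩ := hlip x y
    unfold fW
    split_ifs
    · exact G1 _ _ _
    · rw [← sub_div, abs_div, abs_of_pos (by norm_num : (0 : ℝ) < 2), div_le_iff₀ (by norm_num)]
      linarith
    · rw [← sub_div, abs_div, abs_of_pos (by norm_num : (0 : ℝ) < 2), div_le_iff₀ (by norm_num)]
      linarith
  -- Lipschitz along the boundary
  have hbl : ∀ V : M → ℝ, (∀ x y, |V x - V y| ≤ dist x y) →
      LipI (fun t : ℝ => V (S.boundary (t : AddCircle (2 * π)))) 0 (2 * π) C :=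
    fun V hV s hs t ht => (hV _ _).trans (hC s hs t ht)
  have hxl : LipI x 0 (2 * π) (2 * C) := by
    intro s hs t ht
    have := (hlip (S.boundary (s : AddCircle (2 * π))) (S.boundary (t : AddCircle (2 * π)))).1
    rw [(hbd s).1, (hbd t).1] at this
    have := hC s hs t ht
    linarith
  have hyl : LipI y 0 (2 * π) (2 * C) := by
    intro s hs t ht
    have := (hlip (S.boundary (s : AddCircle (2 * π))) (S.boundary (t : AddCircle (2 * π)))).2
    rw [(hbd s).2, (hbd t).2] at this
    have := hC s hs t ht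
    linarith
  have h2pi : (0 : ℝ) ≤ 2 * π := by positivity
  have hxac := hxl.ac h2pi (by positivity)
  have hyac := hyl.ac h2pi (by positivity)
  have hper : ((2 * π : ℝ) : AddCircle (2 * π)) = ((0 : ℝ) : AddCircle (2 * π)) := by
    rw [AddCircle.coe_period]; simp
  set α : ℕ → ℝ → ℝ := fun i t => fU N K X1 X2 i (S.boundary (t : AddCircle (2 * π))) with hα
  set β : ℕ → ℝ → ℝ := fun i t => fW N G X1 X2 i (S.boundary (t : AddCircle (2 * π))) with hβ
  have hαl : ∀ i, LipI (α i) 0 (2 * π) C := fun i => hbl _ (hU i)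
  have hβl : ∀ i, LipI (β i) 0 (2 * π) C := fun i => hbl _ (hW i)
  have hkey : (encl x y - 8 * π * C * ε) / (1 + ε) ≤
      ∑ i ∈ range (N + 2), cf N K ε i * ∫ t in (0 : ℝ)..(2 * π), α i t * deriv (β i) t := by
    apply flux_ge N hN0 x y s₀ C ε K h0 hs1 hxy hC0 hε hKpos (hN₃ N hNN3) hxl hyl α β hαl hβl
    · intro i hi t
      simp only [hα, fU, if_pos hi, (hbd t).1, (hbd t).2]
    · intro t
      simp only [hα, fU, lt_irrefl, if_false, if_true, (hbd t).1, (hbd t).2]
    · intro t
      have n1 : ¬ (N + 1 < N) := by omega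
      have n2 : ¬ (N + 1 = N) := by omega
      simp only [hα, fU, if_neg n1, if_neg n2, (hbd t).1, (hbd t).2]
    · intro i hi
      funext τ
      simp only [hβ, fW, if_pos hi, G5]
    · funext τ
      simp only [hβ, fW, lt_irrefl, if_false, if_true, (hbd τ).2]
    · have n1 : ¬ (N + 1 < N) := by omega
      have n2 : ¬ (N + 1 = N) := by omega
      funext τ
      simp only [hβ, fW, if_neg n1, if_neg n2, (hbd τ).1]
  refine hkey.trans ?_
  apply area_ge_of_cal S (range (N + 2)) (cf N K ε) (fU N K X1 X2) (fW N G X1 X2) hU hW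
  · -- pointwise
    intro k
    have hseg : ∀ (V : M → ℝ), (∀ x y, |V x - V y| ≤ dist x y) →
        SegLip (S.metric k) (fun p => V (S.chart k p)) := by
      intro V hV p hp q hq
      refine (hV _ _).trans ?_
      rw [dist_comm]
      exact S.dist_le k p hp q hq
    have hGd : ∀ᵐ x ∂(volume.restrict Sqo), ∀ j : ℕ,
        DifferentiableAt ℝ (fun p => G (th N j) (S.chart k p)) x := by
      rw [ae_all_iff]
      intro j
      exact (hseg _ (G1 (th N j))).ae_diff
    have hX1d := (hseg (fun x => X1 x / 2) (by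
      intro x y
      have := (hlip x y).1
      rw [← sub_div, abs_div, abs_of_pos (by norm_num : (0 : ℝ) < 2), div_le_iff₀ (by norm_num)]
      linarith)).ae_diff
    have hX2d := (hseg (fun x => X2 x / 2) (by
      intro x y
      have := (hlip x y).2
      rw [← sub_div, abs_div, abs_of_pos (by norm_num : (0 : ℝ) < 2), div_le_iff₀ (by norm_num)]
      linarith)).ae_diff
    filter_upwards [hGd, hX1d, hX2d, self_mem_ae_restrict isOpen_Sqo.measurableSet] with
      p hp1 hp2 hp3 hpS
    have hd1 : DifferentiableAt ℝ (fun q => X1 (S.chart k q)) p := by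
      have := hp2.const_mul 2
      refine this.congr_of_eventuallyEq (Eventually.of_forall fun q => ?_)
      ring
    have hd2 : DifferentiableAt ℝ (fun q => X2 (S.chart k q)) p := by
      have := hp3.const_mul 2
      refine this.congr_of_eventuallyEq (Eventually.of_forall fun q => ?_)
      ring
    have hmain := hN₂ N hNN2 (fun q => X1 (S.chart k q)) (fun q => X2 (S.chart k q))
      (fun j q => G (th N j) (S.chart k q)) p ((S.metric k).E p) ((S.metric k).F p)
      ((S.metric k).G p) ((S.metric k).pos_E p (Sqo_sub hpS))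
      ((S.metric k).pos_det p (Sqo_sub hpS)) hd1 hd2 hp1
      (fun j v => (hseg _ (G1 (th N j))).deriv_le hpS (hp1 j) v)
      (fun q => hXd _) (fun q => hXZ1 _) (fun q => hXZ2 _)
    rw [Finset.sum_range_succ, Finset.sum_range_succ]
    have e1 : ∑ i ∈ range N, cf N K ε i * jac (fun q => fU N K X1 X2 i (S.chart k q))
        (fun q => fW N G X1 X2 i (S.chart k q)) p
        = (∑ j ∈ range N, π / N * jac (fun q => hh (th N j) (X1 (S.chart k q))
            (X2 (S.chart k q))) (fun q => G (th N j) (S.chart k q)) p) / (1 + ε) := by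
      rw [Finset.sum_div]
      apply Finset.sum_congr rfl
      intro j hj
      have hj' := Finset.mem_range.mp hj
      simp only [cf, fU, fW, if_pos hj']
      rw [jac_smul_left K]
      field_simp
    have e2 : cf N K ε N * jac (fun q => fU N K X1 X2 N (S.chart k q))
        (fun q => fW N G X1 X2 N (S.chart k q)) p
        = -(jac (fun q => X1 (S.chart k q) * kk (X1 (S.chart k q)) (X2 (S.chart k q)))
          (fun q => X2 (S.chart k q)) p) / (1 + ε) := by
      simp only [cf, fU, fW, lt_irrefl, if_false, if_true]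
      rw [jac_smul_smul K 2]
      field_simp
    have e3 : cf N K ε (N + 1) * jac (fun q => fU N K X1 X2 (N + 1) (S.chart k q))
        (fun q => fW N G X1 X2 (N + 1) (S.chart k q)) p
        = jac (fun q => X2 (S.chart k q) * kk (X1 (S.chart k q)) (X2 (S.chart k q)))
          (fun q => X1 (S.chart k q)) p / (1 + ε) := by
      have n1 : ¬ (N + 1 < N) := by omega
      have n2 : ¬ (N + 1 = N) := by omega
      simp only [cf, fU, fW, if_neg n1, if_neg n2]
      rw [jac_smul_smul K 2]
      field_simp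
    rw [e1, e2, e3, ← add_div, ← add_div, div_le_iff₀ (by linarith)]
    linarith [hmain]
  · -- flux
    apply tendsto_finsetSum
    intro i _
    apply Tendsto.const_mul
    exact flx S.brk S.brk_strictMono S.brk_zero S.brk_last C hC0 (α i) (β i) (hαl i) (hβl i)
      (by simp only [hα, hper]) (by simp only [hβ, hper])

/-- **Main theorem**, in coordinates. -/
theorem dom (S : OrientedSurface M) (x y : ℝ → ℝ) (s₀ : ℝ) (h0 : 0 < s₀)
    (h1 : s₀ ^ 2 ≤ 9 / 10) (hxy : ∀ t, x t ^ 2 + y t ^ 2 ≤ s₀ ^ 2)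
    (hd : ∀ θ s t : ℝ, arcsin (dt (x s) (y s) θ) ≤ arcsin (dt (x t) (y t) θ) +
      dist (S.boundary (s : AddCircle (2 * π))) (S.boundary (t : AddCircle (2 * π)))) :
    encl x y ≤ S.area := by
  obtain ⟨C, hC0, hC⟩ := boundary_lip S
  have h := dom_eps Pool.Agent.N262.CAP_INT.main Pool.Agent.N438.CAPRIE.main
    Pool.Agent.N222.CAP_EXI.main Pool.Agent.N495.CAPMON.main sBND2 Pool.Agent.N717.CAP_LIP.main sPTW2
    S x y s₀ h0 h1 hxy hd C hC0 hC
  have h2 : Tendsto (fun ε : ℝ => (encl x y - 8 * π * C * ε) / (1 + ε)) (𝓝[>] 0)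
      (𝓝 (encl x y)) := by
    have : Tendsto (fun ε : ℝ => (encl x y - 8 * π * C * ε) / (1 + ε)) (𝓝 0)
        (𝓝 ((encl x y - 8 * π * C * 0) / (1 + 0))) := by
      apply Tendsto.div (tendsto_const_nhds.sub (tendsto_id.const_mul _))
        (tendsto_const_nhds.add tendsto_id)
      norm_num
    rw [add_zero, div_one, mul_zero, sub_zero] at this
    exact this.mono_left nhdsWithin_le_nhds
  refine le_of_tendsto h2 ?_
  filter_upwards [self_mem_nhdsWithin] with ε hε
  exact h ε hε

end Main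

end Pool.Agent.K9h13.SD
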