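import Mathlib
import Pool.Agent.K9h13.SD.Dom

/-! # Spherical form, and surfaces which are round outside of a disc -/

set_option autoImplicit false

namespace Pool.Agent.K9h13.SD

open Real MeasureTheory Set Filter Topology Finset InnerProductGeometry
open Pool.Agent.H115R3.Filling Pool.Agent.N979.CAP
open scoped RealInnerProductSpace

/-- three-dimensional euclidean space -/
abbrev E3 : Type := EuclideanSpace ℝ (Fin 3)

open Pool.Agent.N46.CAP_EXT (nv nv_norm)

lemma ang_nv (b : E3) (hb : ‖b‖ = 1) (θ : ℝ) :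
    angle (nv θ) b = π / 2 - arcsin (dt (b 0) (b 1) θ) := by
  unfold InnerProductGeometry.angle
  rw [hb, nv_norm, mul_one, div_one, arccos_eq_pi_div_two_sub_arcsin]
  congr 2
  simp [nv, dt, PiLp.inner_apply, Fin.sum_univ_three]

lemma norm_sq3 (b : E3) : ‖b‖ ^ 2 = b 0 ^ 2 + b 1 ^ 2 + b 2 ^ 2 := by
  rw [EuclideanSpace.norm_sq_eq, Fin.sum_univ_three]
  simp

/-- The (signed) area enclosed by a closed curve `b = (x, y, z)` on the unit sphere in the hemisphere around
`(0, 0, 1)`: the integral of `(x dy - y dx) / (1 + z)`, a primitive of the area form (`∫ (1 - cos ρ) dφ` in polar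
coordinates). -/
noncomputable def enclosedArea (b : ℝ → E3) : ℝ :=
  ∫ t in (0 : ℝ)..(2 * π), (b t 0 * deriv (fun t => b t 1) t - b t 1 * deriv (fun t => b t 0) t)
    / (1 + b t 2)

lemma encl_eq (b : ℝ → E3) (hb : ∀ t, ‖b t‖ = 1) (hz : ∀ t, 0 ≤ b t 2) :
    encl (fun t => b t 0) (fun t => b t 1) = enclosedArea b := by
  unfold encl enclosedArea
  congr 1
  funext t
  have h1 : 1 - b t 0 ^ 2 - b t 1 ^ 2 = b t 2 ^ 2 := by
    have := norm_sq3 (b t)
    rw [hb t] at this
    linarith
  unfold kk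
  rw [h1, Real.sqrt_sq (hz t)]
  ring

lemma asin_le {M : Type} [MetricSpace M] (S : OrientedSurface M) (b : ℝ → E3) (hb : ∀ t, ‖b t‖ = 1)
    (hd : ∀ s t : ℝ, angle (b s) (b t) ≤
      dist (S.boundary (s : AddCircle (2 * π))) (S.boundary (t : AddCircle (2 * π)))) (θ s t : ℝ) :
    arcsin (dt (b s 0) (b s 1) θ) ≤ arcsin (dt (b t 0) (b t 1) θ) +
      dist (S.boundary (s : AddCircle (2 * π))) (S.boundary (t : AddCircle (2 * π))) := by
  have h2 := InnerProductGeometry.angle_le_angle_add_angle (nv θ) (b s) (b t)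
  rw [ang_nv _ (hb s), ang_nv _ (hb t)] at h2
  have h3 := hd s t
  linarith

lemma tenth : (1 / √10 : ℝ) ^ 2 = 1 / 10 := by
  rw [div_pow, Real.sq_sqrt (by norm_num), one_pow]

lemma tenth_pos : (0 : ℝ) < 1 / √10 := by positivity

/-- The area of a surface is at least the area enclosed by a curve in a cap. -/
theorem dom_sph {M : Type} [MetricSpace M] (S : OrientedSurface M) (b : ℝ → E3)
    (hb : ∀ t, ‖b t‖ = 1) (hz : ∀ t, 1 / √10 ≤ b t 2)
    (hd : ∀ s t : ℝ, angle (b s) (b t) ≤
      dist (S.boundary (s : AddCircle (2 * π))) (S.boundary (t : AddCircle (2 * π)))) :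
    enclosedArea b ≤ S.area := by
  rw [← encl_eq b hb fun t => by linarith [hz t, tenth_pos]]
  have hs : √(9 / 10 : ℝ) ^ 2 = 9 / 10 := Real.sq_sqrt (by norm_num)
  apply dom S _ _ √(9 / 10) (Real.sqrt_pos.2 (by norm_num)) hs.le
  · intro t
    rw [hs]
    have := norm_sq3 (b t)
    rw [hb t] at this
    have h3 : (1 / √10 : ℝ) ^ 2 ≤ (b t 2) ^ 2 := pow_le_pow_left₀ tenth_pos.le (hz t) 2
    rw [tenth] at h3
    linarith
  · exact asin_le S b hb hd

/-- the reflection which exchanges the first two coordinates -/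
noncomputable def swp (v : E3) : E3 := !₂[v 1, v 0, v 2]

lemma inner_swp (u v : E3) : ⟪swp u, swp v⟫ = ⟪u, v⟫ := by
  simp [swp, PiLp.inner_apply, Fin.sum_univ_three]
  ring

lemma norm_swp (u : E3) : ‖swp u‖ = ‖u‖ := by
  have h := inner_swp u u
  rw [real_inner_self_eq_norm_sq, real_inner_self_eq_norm_sq] at h
  have := norm_nonneg u
  have := norm_nonneg (swp u)
  nlinarith

theorem dom_sph_abs {M : Type} [MetricSpace M] (S : OrientedSurface M) (b : ℝ → E3)
    (hb : ∀ t, ‖b t‖ = 1) (hz : ∀ t, 1 / √10 ≤ b t 2)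
    (hd : ∀ s t : ℝ, angle (b s) (b t) ≤
      dist (S.boundary (s : AddCircle (2 * π))) (S.boundary (t : AddCircle (2 * π)))) :
    |enclosedArea b| ≤ S.area := by
  rw [abs_le]
  refine ⟨?_, dom_sph S b hb hz hd⟩
  have h := dom_sph S (fun t => swp (b t)) (fun t => by rw [norm_swp, hb t])
    (fun t => by simpa [swp] using hz t) (fun s t => by
      refine le_trans (le_of_eq ?_) (hd s t)
      unfold InnerProductGeometry.angle
      rw [norm_swp, norm_swp, inner_swp])
  have e : enclosedArea (fun t => swp (b t)) = -enclosedArea b := by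
    unfold enclosedArea
    rw [← intervalIntegral.integral_neg]
    congr 1
    funext t
    simp only [swp]
    simp only [PiLp.toLp_apply, Matrix.cons_val_zero, Matrix.cons_val_one, Matrix.cons_val]
    ring
  rw [e] at h
  linarith

/-! ### Great circles -/

lemma rho_eq (x : ℝ) : arccos (cos x) = rho x := by
  have h0 : cos (rho x) = cos x := by
    unfold rho
    rw [AddCircle.norm_eq, cos_abs]
    have := Real.cos_sub_int_mul_two_pi x (round ((2 * π)⁻¹ * x))
    exact this
  rw [← h0, arccos_cos (rho_nonneg x) (rho_le x)]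

/-- arcs which avoid a disc -/
lemma arc_avoid {κ A B : ℝ} {x y : E3} (hκ : 0 ≤ κ) (hx : ‖x‖ = 1) (hy : ‖y‖ = 1) (hA : 0 ≤ A)
    (hB : 0 ≤ B) (hx2 : x 2 = κ) (hy2 : κ ≤ y 2) : (A • x - B • y) 2 ≤ κ * ‖A • x - B • y‖ := by
  have h1 : A - B ≤ ‖A • x - B • y‖ := by
    have := norm_sub_norm_le (A • x) (B • y)
    rwa [norm_smul, norm_smul, hx, hy, mul_one, mul_one, Real.norm_of_nonneg hA,
      Real.norm_of_nonneg hB] at this
  have h2 : (A • x - B • y) 2 = A * x 2 - B * y 2 := by simp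
  rw [h2, hx2]
  nlinarith

/-- `S` is obtained from the surface `S₀` by gluing the part outside of the disc `D = {z > κ}` of the
unit hemisphere `H = {v : ⟨v, F 2⟩ ≥ 0}` (`F` any orthonormal basis), along the part of the boundary of `S₀` which
corresponds to the part of the boundary of `D` in `H`; the boundary of `S` is the circle of length `2π`.

* `emb`: the faces of `S₀` are faces of `S`;
* `b`: the closed curve on the sphere which corresponds to the boundary of `S₀`; its points are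
  in `H`, in the closed disc, and on the boundary of the disc or of `H`;
* `P`: the points of `S` which correspond to the points of `H` outside of `D`, of the boundary of
  `H` and of the curve `b`;
* `dist_le`: if the great circle arc between two points `x ≠ -y` of `H` avoids the disc then the
  distance of the corresponding points in `S` is at most its length, the angle between `x` and `y`;
* `area_outside`: the area of the other faces is `2π` minus the area enclosed by `b` (its absolute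
  value, for either orientation of `b`). -/
structure RoundOutside {M : Type} [MetricSpace M] (S S₀ : OrientedSurface M) (κ : ℝ)
    (F : OrthonormalBasis (Fin 3) ℝ E3) where
  emb : Fin S₀.faces ↪ Fin S.faces
  chart_emb : ∀ i, S.chart (emb i) = S₀.chart i
  metric_emb : ∀ i, S.metric (emb i) = S₀.metric i
  b : ℝ → E3
  P : E3 → M
  b_norm : ∀ t, ‖b t‖ = 1
  b_hemisphere : ∀ t, 0 ≤ ⟪b t, F 2⟫
  b_disc : ∀ t, κ ≤ b t 2
  b_boundary : ∀ t, b t 2 = κ ∨ ⟪b t, F 2⟫ = 0
  P_outer : ∀ φ : ℝ, P (cos φ • F 0 + sin φ • F 1) = S.boundary (φ : AddCircle (2 * π))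
  P_inner : ∀ t : ℝ, P (b t) = S₀.boundary (t : AddCircle (2 * π))
  dist_le : ∀ x y : E3, ‖x‖ = 1 → ‖y‖ = 1 → x + y ≠ 0 → 0 ≤ ⟪x, F 2⟫ → 0 ≤ ⟪y, F 2⟫ →
    (∀ t ∈ Set.Icc (0 : ℝ) 1, ((1 - t) • x + t • y) 2 ≤ κ * ‖(1 - t) • x + t • y‖) →
    dist (P x) (P y) ≤ angle x y
  area_outside : ∑ i ∈ Finset.univ.filter (fun i => i ∉ Set.range emb), (S.metric i).area
    = 2 * π - |enclosedArea b|

section RO

variable {M : Type} [MetricSpace M] {S S₀ : OrientedSurface M} {κ : ℝ}
  {F : OrthonormalBasis (Fin 3) ℝ E3}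

lemma equator (F : OrthonormalBasis (Fin 3) ℝ E3) {e : E3} (he : ‖e‖ = 1) (hw : ⟪e, F 2⟫ = 0) :
    ∃ φ : ℝ, e = cos φ • F 0 + sin φ • F 1 := by
  have h1 := F.sum_repr' e
  rw [Fin.sum_univ_three, real_inner_comm e (F 2), hw, zero_smul, add_zero] at h1
  set a : ℝ := ⟪F 0, e⟫ with ha
  set c : ℝ := ⟪F 1, e⟫ with hc
  have h2 : a ^ 2 + c ^ 2 = 1 := by
    have h3 : ‖a • F 0 + c • F 1‖ ^ 2 = a ^ 2 + c ^ 2 := by
      have hF := F.orthonormal
      have h00 : ⟪F 0, F 0⟫ = (1 : ℝ) := by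
        rw [real_inner_self_eq_norm_sq, hF.1 0, one_pow]
      have h11 : ⟪F 1, F 1⟫ = (1 : ℝ) := by
        rw [real_inner_self_eq_norm_sq, hF.1 1, one_pow]
      have h01 : ⟪F 0, F 1⟫ = (0 : ℝ) := hF.2 (by decide)
      have h10 : ⟪F 1, F 0⟫ = (0 : ℝ) := hF.2 (by decide)
      rw [← real_inner_self_eq_norm_sq, inner_add_left, inner_add_right, inner_add_right,
        inner_smul_left, inner_smul_right, inner_smul_left, inner_smul_right, inner_smul_left,
        inner_smul_right, inner_smul_left, inner_smul_right, h00, h01, h10, h11]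
      simp only [conj_trivial]
      ring
    rw [h1, he] at h3
    linarith
  refine ⟨Complex.arg ⟨a, c⟩, ?_⟩
  have hn : ‖(⟨a, c⟩ : ℂ)‖ = 1 := by
    have h4 : ‖(⟨a, c⟩ : ℂ)‖ ^ 2 = 1 := by
      rw [Complex.sq_norm, Complex.normSq_mk]
      linarith
    have h5 := norm_nonneg (⟨a, c⟩ : ℂ)
    nlinarith
  have hx := Complex.norm_mul_cos_arg (⟨a, c⟩ : ℂ)
  have hy := Complex.norm_mul_sin_arg (⟨a, c⟩ : ℂ)
  rw [hn, one_mul] at hx hy
  simp only at hx hy
  rw [hx, hy, h1]

lemma neg_equator (F : OrthonormalBasis (Fin 3) ℝ E3) (φ : ℝ) :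
    -(cos φ • F 0 + sin φ • F 1) = cos (φ + π) • F 0 + sin (φ + π) • F 1 := by
  rw [cos_add_pi, sin_add_pi, neg_smul, neg_smul, neg_add]

lemma angle_equator (F : OrthonormalBasis (Fin 3) ℝ E3) (φ ψ : ℝ) :
    angle (cos φ • F 0 + sin φ • F 1) (cos ψ • F 0 + sin ψ • F 1)
      = dist (φ : AddCircle (2 * π)) (ψ : AddCircle (2 * π)) := by
  have hF := F.orthonormal
  have h00 : ⟪F 0, F 0⟫ = (1 : ℝ) := by
    rw [real_inner_self_eq_norm_sq, hF.1 0, one_pow]
  have h11 : ⟪F 1, F 1⟫ = (1 : ℝ) := by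
    rw [real_inner_self_eq_norm_sq, hF.1 1, one_pow]
  have h01 : ⟪F 0, F 1⟫ = (0 : ℝ) := hF.2 (by decide)
  have h10 : ⟪F 1, F 0⟫ = (0 : ℝ) := hF.2 (by decide)
  have hin : ∀ α β : ℝ, ⟪cos α • F 0 + sin α • F 1, cos β • F 0 + sin β • F 1⟫ = cos (α - β) := by
    intro α β
    rw [inner_add_left, inner_add_right, inner_add_right,
        inner_smul_left, inner_smul_right, inner_smul_left, inner_smul_right, inner_smul_left,
        inner_smul_right, inner_smul_left, inner_smul_right, h00, h01, h10, h11, cos_sub]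
    simp only [conj_trivial]
    ring
  have hn : ∀ α : ℝ, ‖cos α • F 0 + sin α • F 1‖ = 1 := by
    intro α
    have h := hin α α
    rw [real_inner_self_eq_norm_sq, sub_self, cos_zero] at h
    have := norm_nonneg (cos α • F 0 + sin α • F 1)
    nlinarith
  unfold InnerProductGeometry.angle
  rw [hn, hn, hin, mul_one, div_one, rho_eq, dist_eq_rho]

/-- antipodal points of the equator -/
lemma far (hc : RoundOutside S S₀ κ F) (hS : S.NoShortcut) {e : E3} (he : ‖e‖ = 1)
    (hw : ⟪e, F 2⟫ = 0) : π ≤ dist (hc.P e) (hc.P (-e)) := by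
  obtain ⟨φ, rfl⟩ := equator F he hw
  rw [neg_equator, hc.P_outer, hc.P_outer]
  exact anti_of_noShortcut hS φ

/-- one of the points is on the equator -/
lemma case_eq (hκ : 0 ≤ κ) (hc : RoundOutside S S₀ κ F) (hS : S.NoShortcut) {x y : E3}
    (hx : ‖x‖ = 1) (hy : ‖y‖ = 1) (hxw : 0 ≤ ⟪x, F 2⟫) (hyw : ⟪y, F 2⟫ = 0)
    (hx2 : x 2 = κ) (hy2 : κ ≤ y 2) : angle x y ≤ dist (hc.P x) (hc.P y) := by
  by_cases hxy : x = y
  · rw [hxy, angle_self (by rw [← norm_ne_zero_iff, hy]; norm_num), dist_self]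
  have h1 := far hc hS hy hyw
  have h2 := hc.dist_le x (-y) hx (by rw [norm_neg, hy]) (fun h => hxy (add_neg_eq_zero.1 h)) hxw
    (by rw [inner_neg_left, hyw, neg_zero]) (by
      intro t ht
      have := arc_avoid (A := 1 - t) (B := t) hκ hx hy (by linarith [ht.2]) ht.1 hx2 hy2
      rwa [smul_neg, ← sub_eq_add_neg])
  rw [angle_neg_right] at h2
  have h3 := dist_triangle (hc.P y) (hc.P x) (hc.P (-y))
  rw [dist_comm (hc.P y) (hc.P x)] at h3
  linarith

/-- both points are on the boundary of the disc -/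
lemma case_disc (hκ : 0 ≤ κ) (hc : RoundOutside S S₀ κ F) (hS : S.NoShortcut) {x y : E3}
    (hx : ‖x‖ = 1) (hy : ‖y‖ = 1) (hxw : 0 < ⟪x, F 2⟫) (hyw : 0 < ⟪y, F 2⟫)
    (hx2 : x 2 = κ) (hy2 : y 2 = κ) : angle x y ≤ dist (hc.P x) (hc.P y) := by
  by_cases hxy : x = y
  · rw [hxy, angle_self (by rw [← norm_ne_zero_iff, hy]; norm_num), dist_self]
  set a : ℝ := ⟪y, F 2⟫ with ha
  set c : ℝ := ⟪x, F 2⟫ with hcc
  set v : E3 := a • x - c • y with hv
  have hsm : ∀ r s : ℝ, 0 < r → 0 < s → r • x = s • y → False := by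
    intro r s hr hs h
    have h1 : ‖r • x‖ = ‖s • y‖ := by rw [h]
    rw [norm_smul, norm_smul, hx, hy, mul_one, mul_one, Real.norm_of_nonneg hr.le,
      Real.norm_of_nonneg hs.le] at h1
    rw [h1] at h
    exact hxy (smul_right_injective E3 hs.ne' h)
  have hv0 : v ≠ 0 := by
    intro h
    rw [hv, sub_eq_zero] at h
    exact hsm a c hyw hxw h
  set n : ℝ := ‖v‖ with hn
  have hn0 : 0 < n := norm_pos_iff.2 hv0
  set e : E3 := n⁻¹ • v with he
  have he1 : ‖e‖ = 1 := by
    rw [he, norm_smul, norm_inv, Real.norm_of_nonneg hn0.le, ← hn, inv_mul_cancel₀ hn0.ne']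
  have hew : ⟪e, F 2⟫ = 0 := by
    rw [he, inner_smul_left, hv, inner_sub_left, inner_smul_left, inner_smul_left, ← ha, ← hcc]
    simp only [conj_trivial]
    ring
  have hfar := far hc hS he1 hew
  have hex : e = (n⁻¹ * a) • x - (n⁻¹ * c) • y := by
    rw [he, hv, smul_sub, smul_smul, smul_smul]
  have hna : 0 < n⁻¹ * a := mul_pos (inv_pos.2 hn0) hyw
  have hnc : 0 < n⁻¹ * c := mul_pos (inv_pos.2 hn0) hxw
  have d1 := hc.dist_le e x he1 hx (by
      intro h
      rw [hex] at h
      have : (n⁻¹ * a + 1) • x = (n⁻¹ * c) • y := by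
        rw [add_smul, one_smul, ← sub_eq_zero, ← h]; abel
      exact hsm _ _ (by positivity) hnc this) hew.ge hxw.le (by
      intro t ht
      have := arc_avoid (A := (1 - t) * (n⁻¹ * a) + t) (B := (1 - t) * (n⁻¹ * c)) hκ hx hy
        (by have := ht.1; have := sub_nonneg.2 ht.2; positivity)
        (by have := sub_nonneg.2 ht.2; positivity) hx2 hy2.ge
      have e1 : (1 - t) • e + t • x = ((1 - t) * (n⁻¹ * a) + t) • x - ((1 - t) * (n⁻¹ * c)) • y := by
        rw [hex]; module
      rwa [e1])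
  have d2 := hc.dist_le y (-e) hy (by rw [norm_neg, he1]) (by
      intro h
      rw [hex] at h
      have : (n⁻¹ * a) • x = (n⁻¹ * c + 1) • y := by
        rw [add_smul, one_smul, ← sub_eq_zero, ← neg_eq_zero, ← h]; abel
      exact hsm _ _ hna (by positivity) this) hyw.le (by rw [inner_neg_left, hew, neg_zero]) (by
      intro t ht
      have := arc_avoid (A := t * (n⁻¹ * c) + (1 - t)) (B := t * (n⁻¹ * a)) hκ hy hx
        (by have := ht.1; have := sub_nonneg.2 ht.2; positivity)
        (by have := ht.1; positivity) hy2 hx2.ge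
      have e1 : (1 - t) • y + t • (-e) = (t * (n⁻¹ * c) + (1 - t)) • y - (t * (n⁻¹ * a)) • x := by
        rw [hex]; module
      rwa [e1])
  have hsum := angle_add_angle_sub_add_angle_sub_eq_pi (a • x) (y := c • y)
    (smul_ne_zero hxw.ne' (by rw [← norm_ne_zero_iff, hy]; norm_num))
  have hsum' : angle x y + angle x e + angle y (-e) = π := by
    have e1 : angle (a • x) (c • y) = angle x y := by
      rw [angle_smul_left_of_pos _ _ hyw, angle_smul_right_of_pos _ _ hxw]
    have e2 : angle (a • x) (a • x - c • y) = angle x e := by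
      rw [angle_smul_left_of_pos _ _ hyw, he, angle_smul_right_of_pos _ _ (inv_pos.2 hn0)]
    have e3 : angle (c • y) (c • y - a • x) = angle y (-e) := by
      rw [angle_smul_left_of_pos _ _ hxw, he, ← smul_neg,
        angle_smul_right_of_pos _ _ (inv_pos.2 hn0), hv, neg_sub]
    rw [← e1, ← e2, ← e3]
    exact hsum
  have d3 := dist_triangle4 (hc.P e) (hc.P x) (hc.P y) (hc.P (-e))
  rw [angle_comm] at d1
  linarith

/-- The inner surface satisfies the hypothesis of the theorem on curves in caps. -/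
lemma inner_le (hκ : 0 ≤ κ) (hc : RoundOutside S S₀ κ F) (hS : S.NoShortcut) (s t : ℝ) :
    angle (hc.b s) (hc.b t) ≤
      dist (S₀.boundary (s : AddCircle (2 * π))) (S₀.boundary (t : AddCircle (2 * π))) := by
  rw [← hc.P_inner, ← hc.P_inner]
  rcases eq_or_ne (⟪hc.b s, F 2⟫ : ℝ) 0 with h1 | h1
  · rcases eq_or_ne (⟪hc.b t, F 2⟫ : ℝ) 0 with h2 | h2
    · obtain ⟨φ, hφ⟩ := equator F (hc.b_norm s) h1
      obtain ⟨ψ, hψ⟩ := equator F (hc.b_norm t) h2
      rw [hφ, hψ, hc.P_outer, hc.P_outer, angle_equator]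
      exact hS _ _
    · rw [angle_comm, dist_comm]
      exact case_eq hκ hc hS (hc.b_norm t) (hc.b_norm s) (hc.b_hemisphere t) h1
        ((hc.b_boundary t).resolve_right h2) (hc.b_disc s)
  · rcases eq_or_ne (⟪hc.b t, F 2⟫ : ℝ) 0 with h2 | h2
    · exact case_eq hκ hc hS (hc.b_norm s) (hc.b_norm t) (hc.b_hemisphere s) h2
        ((hc.b_boundary s).resolve_right h1) (hc.b_disc t)
    · exact case_disc hκ hc hS (hc.b_norm s) (hc.b_norm t)
        (lt_of_le_of_ne (hc.b_hemisphere s) (Ne.symm h1))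
        (lt_of_le_of_ne (hc.b_hemisphere t) (Ne.symm h2))
        ((hc.b_boundary s).resolve_right h1) ((hc.b_boundary t).resolve_right h2)

/-- The filling area conjecture for surfaces which are round outside of a disc. -/
theorem area_ge_round (hκ : 1 / √10 ≤ κ) (hc : RoundOutside S S₀ κ F) (hS : S.NoShortcut) :
    2 * π ≤ S.area := by
  have h3 := dom_sph_abs S₀ hc.b hc.b_norm (fun t => hκ.trans (hc.b_disc t))
    (inner_le (tenth_pos.le.trans hκ) hc hS)
  have h4 : S.area = S₀.area + (2 * π - |enclosedArea hc.b|) := by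
    unfold OrientedSurface.area
    rw [← hc.area_outside, ← Finset.sum_filter_add_sum_filter_not Finset.univ
      (fun i => i ∈ Set.range hc.emb)]
    congr 1
    have : Finset.univ.filter (fun i => i ∈ Set.range hc.emb)
        = Finset.univ.map hc.emb := by
      ext i
      simp
    rw [this, Finset.sum_map]
    exact Finset.sum_congr rfl fun i _ => by rw [hc.metric_emb]
  rw [h4]
  linarith

end RO

end Pool.Agent.K9h13.SD
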